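import Pool.Agent.H74.TQ.Stmts

set_option autoImplicit false

namespace Pool.TQ

open TMLib Polynomial

namespace UPD

section

variable (f : ℕ × List Bool → List Bool × List Bool) (K : ℕ → ℕ)
  (w : ℕ × (List Bool × List Bool) → Option (List Bool))

/-- the two children, cut to the right length -/
def kids (n : ℕ) (e : List Bool) : List Bool × List Bool :=
  ((f (n, e)).1.take (K n), (f (n, e)).2.take (K n))

/-- one step down -/
def down (n : ℕ) (s : List Bool × List (Bool × List Bool)) (b : Bool) :
    List Bool × List (Bool × List Bool) :=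
  (bif b then (kids f K n s.1).2 else (kids f K n s.1).1,
   (b, bif b then (kids f K n s.1).1 else (kids f K n s.1).2) :: s.2)

/-- the pair of children -/
def mk (b : Bool) (sib c : List Bool) : List Bool × List Bool := bif b then (sib, c) else (c, sib)

/-- one step up, given the result of the search -/
def post (s : List Bool × Option (List Bool × List Bool)) (x : Bool × List Bool)
    (o : Option (List Bool)) : List Bool × Option (List Bool × List Bool) :=
  match o with
  | some y => (y, s.2)
  | none => (s.1, some (s.2.getD (mk x.1 x.2 s.1)))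

/-- one step up -/
def up (n : ℕ) (s : List Bool × Option (List Bool × List Bool)) (x : Bool × List Bool) :
    List Bool × Option (List Bool × List Bool) :=
  post s x (w (n, mk x.1 x.2 s.1))

/-- siblings along the path, from the root to the leaf -/
def sibs (n : ℕ) : List Bool → List Bool → List (Bool × List Bool)
  | _, [] => []
  | e, b :: p => (b, bif b then (kids f K n e).1 else (kids f K n e).2) ::
      sibs n (bif b then (kids f K n e).2 else (kids f K n e).1) p

lemma down_foldl (n : ℕ) (p : List Bool) : ∀ (e : List Bool) (acc : List (Bool × List Bool)),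
    (p.foldl (down f K n) (e, acc)).2 = (sibs f K n e p).reverse ++ acc := by
  induction p with
  | nil => intro e acc; simp [sibs]
  | cons b p ih =>
    intro e acc
    rw [List.foldl_cons, down, ih]
    simp [sibs]

/-- the result -/
def res (n : ℕ) (e p v : List Bool) : List Bool × Option (List Bool × List Bool) :=
  (p.foldl (down f K n) (e, [])).2.foldl (up w n) (v, none)

lemma res_nil (n : ℕ) (e v : List Bool) : res f K w n e [] v = (v, none) := rfl

lemma res_cons (n : ℕ) (b : Bool) (e p v : List Bool) : res f K w n e (b :: p) v =
    up w n (res f K w n (bif b then (kids f K n e).2 else (kids f K n e).1) p v)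
      (b, bif b then (kids f K n e).1 else (kids f K n e).2) := by
  simp only [res, down_foldl, List.append_nil, List.foldl_reverse, sibs, List.foldr_cons]

end

lemma sz_bits (l : List Bool) (k : ℕ) (h : l.length ≤ k) : sz l ≤ 1 + k * 4 :=
  sz_list_le l k 3 h fun b _ => sz_bool_le b

/-- correctness -/
lemma correct (f : ℕ × List Bool → List Bool × List Bool) (K : ℕ → ℕ) (hf : Double f K)
    (w : ℕ × (List Bool × List Bool) → Option (List Bool))
    (hw1 : ∀ a x, w a = some x → x.length = K a.1 ∧ f (a.1, x) = a.2)
    (hw2 : ∀ a, w a = none → ∀ x : List Bool, x.length = K a.1 → f (a.1, x) ≠ a.2)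
    (n : ℕ) (v : List Bool) (hv : v.length = K n) : ∀ (p e : List Bool), e.length = K n →
      (res f K w n e p v).1.length = K n ∧
      (∀ l r, (res f K w n e p v).2 = some (l, r) → l.length = K n ∧ r.length = K n ∧
        ∀ x : List Bool, x.length = K n → f (n, x) ≠ (l, r)) ∧
      ((res f K w n e p v).2 = none → ∀ p' : List Bool, p'.length = p.length →
        dec (fun x => f (n, x)) (res f K w n e p v).1 p' =
          if p' = p then v else dec (fun x => f (n, x)) e p') := by
  intro p
  induction p with
  | nil =>
    intro e he
    refine ⟨hv, fun l r h => by simp [res_nil] at h, fun _ p' hp' => ?_⟩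
    have : p' = [] := List.eq_nil_of_length_eq_zero hp'
    subst this
    simp [res_nil, dec]
  | cons b p ih =>
    intro e he
    have hk1 : (kids f K n e).1 = (f (n, e)).1 := by
      simp only [kids]
      exact List.take_of_length_le (by rw [hf.len₁ n e he])
    have hk2 : (kids f K n e).2 = (f (n, e)).2 := by
      simp only [kids]
      exact List.take_of_length_le (by rw [hf.len₂ n e he])
    set c : List Bool := bif b then (kids f K n e).2 else (kids f K n e).1 with hc
    set sib : List Bool := bif b then (kids f K n e).1 else (kids f K n e).2 with hsib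
    have hcl : c.length = K n := by
      rw [hc]; cases b
      · simp only [cond_false]; rw [hk1]; exact hf.len₁ n e he
      · simp only [cond_true]; rw [hk2]; exact hf.len₂ n e he
    have hsl : sib.length = K n := by
      rw [hsib]; cases b
      · simp only [cond_false]; rw [hk2]; exact hf.len₂ n e he
      · simp only [cond_true]; rw [hk1]; exact hf.len₁ n e he
    obtain ⟨ih1, ih2, ih3⟩ := ih c hcl
    rw [res_cons, ← hc, ← hsib]
    set s := res f K w n c p v with hs
    cases hwv : w (n, mk b sib s.1) with
    | some y =>
      obtain ⟨hy1, hy2⟩ := hw1 _ _ hwv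
      simp only at hy1 hy2
      have hup : up w n s (b, sib) = (y, s.2) := by simp only [up, hwv, post]
      rw [hup]
      refine ⟨hy1, ih2, fun hnone p' hp' => ?_⟩
      cases p' with
      | nil => simp at hp'
      | cons b' q =>
        have hq : q.length = p.length := by simpa using hp'
        have e1 : dec (fun x => f (n, x)) y (b' :: q) =
            dec (fun x => f (n, x)) (bif b' then (mk b sib s.1).2 else (mk b sib s.1).1) q := by
          simp only [dec, List.foldl_cons, hy2]
        have e2 : dec (fun x => f (n, x)) e (b' :: q) =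
            dec (fun x => f (n, x)) (bif b' then (f (n, e)).2 else (f (n, e)).1) q := by
          simp only [dec, List.foldl_cons]
        rw [e1, e2]
        have ih3' := ih3 hnone q hq
        cases b <;> cases b' <;>
          simp_all [mk]
    | none =>
      have hno := hw2 _ hwv
      simp only at hno
      have hup : up w n s (b, sib) = (s.1, some (s.2.getD (mk b sib s.1))) := by
        simp only [up, hwv, post]
      rw [hup]
      refine ⟨ih1, fun l r h => ?_, fun h => by simp at h⟩
      cases hs2 : s.2 with
      | some pr =>
        obtain ⟨l', r'⟩ := pr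
        rw [hs2] at h
        simp only [Option.getD_some, Option.some.injEq, Prod.mk.injEq] at h
        obtain ⟨rfl, rfl⟩ := h
        exact ih2 _ _ hs2
      | none =>
        rw [hs2] at h
        simp only [Option.getD_none, Option.some.injEq] at h
        rw [h] at hno
        refine ⟨?_, ?_, hno⟩
        · cases b <;> simp only [mk, cond_true, cond_false, Prod.mk.injEq] at h
          · rw [← h.1]; exact ih1
          · rw [← h.1]; exact hsl
        · cases b <;> simp only [mk, cond_true, cond_false, Prod.mk.injEq] at h
          · rw [← h.2]; exact hsl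
          · rw [← h.2]; exact ih1

/-- sizes in the first phase -/
lemma down_size (f : ℕ × List Bool → List Bool × List Bool) (K : ℕ → ℕ) (n B : ℕ)
    (hB : 1 + K n * 4 ≤ B) : ∀ (p : List Bool) (s : List Bool × List (Bool × List Bool)),
    sz s.1 ≤ B → (∀ x ∈ s.2, sz x ≤ 4 + B) →
    sz (p.foldl (down f K n) s).1 ≤ B ∧ (∀ x ∈ (p.foldl (down f K n) s).2, sz x ≤ 4 + B) ∧
      (p.foldl (down f K n) s).2.length = s.2.length + p.length := by
  intro p
  induction p with
  | nil => intro s h1 h2; exact ⟨h1, h2, rfl⟩
  | cons b p ih =>
    intro s h1 h2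
    rw [List.foldl_cons]
    have k1 : sz (kids f K n s.1).1 ≤ B :=
      (sz_bits _ (K n) (by simp only [kids, List.length_take]; exact min_le_left _ _)).trans hB
    have k2 : sz (kids f K n s.1).2 ≤ B :=
      (sz_bits _ (K n) (by simp only [kids, List.length_take]; exact min_le_left _ _)).trans hB
    obtain ⟨a1, a2, a3⟩ := ih (down f K n s b) (by
      cases b <;> simp only [down, cond_true, cond_false] <;> assumption) (by
      intro x hx
      simp only [down, List.mem_cons] at hx
      rcases hx with rfl | hx
      · have := sz_bool_le b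
        rw [sz_pair]
        cases b <;> simp only [cond_true, cond_false] at * <;> omega
      · exact h2 x hx)
    refine ⟨a1, a2, ?_⟩
    rw [a3]
    simp [down]
    omega

lemma mk_size (b : Bool) (sib c : List Bool) : sz (mk b sib c) = 1 + sz sib + sz c := by
  cases b <;> simp [mk] <;> omega

/-- sizes in the second phase -/
lemma up_size (w : ℕ × (List Bool × List Bool) → Option (List Bool)) (n B : ℕ)
    (hw : ∀ a x, a.1 = n → w a = some x → sz x ≤ B) :
    ∀ (l : List (Bool × List Bool)) (s : List Bool × Option (List Bool × List Bool)),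
    (∀ x ∈ l, sz x ≤ 4 + B) → sz s.1 ≤ B → sz s.2 ≤ 7 + 2 * B →
    sz (l.foldl (up w n) s).1 ≤ B ∧ sz (l.foldl (up w n) s).2 ≤ 7 + 2 * B := by
  intro l
  induction l with
  | nil => intro s _ h1 h2; exact ⟨h1, h2⟩
  | cons x l ih =>
    intro s h0 h1 h2
    rw [List.foldl_cons]
    refine ih _ (fun y hy => h0 y (List.mem_cons_of_mem _ hy)) ?_ ?_
    · cases hwv : w (n, mk x.1 x.2 s.1) with
      | some y =>
        simp only [up, hwv, post]
        exact hw _ _ rfl hwv
      | none =>
        simp only [up, hwv, post]
        exact h1
    · cases hwv : w (n, mk x.1 x.2 s.1) with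
      | some y =>
        simp only [up, hwv, post]
        exact h2
      | none =>
        simp only [up, hwv, post]
        cases hs2 : s.2 with
        | some pr =>
          rw [hs2] at h2
          simpa using h2
        | none =>
          have h3 := h0 x List.mem_cons_self
          rw [sz_pair] at h3
          have h4 := sz_pos x.1
          simp only [Option.getD_none, sz_some, mk_size]
          omega

lemma ptime_kids {f : ℕ × List Bool → List Bool × List Bool} {K : ℕ → ℕ} (hf : PTime f)
    (hK : PTime K) : PTime (fun p : ℕ × List Bool => kids f K p.1 p.2) := by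
  unfold kids
  have h1 : PTime (fun p : ℕ × List Bool => f (p.1, p.2)) := hf
  have h2 : PTime (fun p : ℕ × List Bool => K p.1) := hK.comp (PTime.fst PTime.id)
  exact PTime.pair (PTime.take h2 (PTime.fst h1)) (PTime.take h2 (PTime.snd h1))

lemma ptime_down {f : ℕ × List Bool → List Bool × List Bool} {K : ℕ → ℕ} (hf : PTime f)
    (hK : PTime K) : PTime (fun p : ℕ × (List Bool × List (Bool × List Bool)) × Bool =>
      down f K p.1 p.2.1 p.2.2) := by
  have h1 : PTime (fun p : ℕ × (List Bool × List (Bool × List Bool)) × Bool =>
      kids f K p.1 p.2.1.1) := (ptime_kids hf hK).comp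
    (f := fun p : ℕ × (List Bool × List (Bool × List Bool)) × Bool => (p.1, p.2.1.1))
    (by fun_prop)
  unfold down
  have hb : PTime (fun p : ℕ × (List Bool × List (Bool × List Bool)) × Bool => p.2.2) := by
    fun_prop
  have hl : PTime (fun p : ℕ × (List Bool × List (Bool × List Bool)) × Bool => p.2.1.2) := by
    fun_prop
  exact PTime.pair (PTime.cond hb (PTime.snd h1) (PTime.fst h1))
    (PTime.cons (PTime.pair hb (PTime.cond hb (PTime.fst h1) (PTime.snd h1))) hl)

lemma ptime_mk {α : Type} [Enc α] {b : α → Bool} {s c : α → List Bool} (hb : PTime b)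
    (hs : PTime s) (hc : PTime c) : PTime (fun x => mk (b x) (s x) (c x)) := by
  unfold mk
  exact PTime.cond hb (PTime.pair hs hc) (PTime.pair hc hs)

lemma ptime_post : PTime (fun q : ((List Bool × Option (List Bool × List Bool)) ×
    (Bool × List Bool)) × Option (List Bool) => post q.1.1 q.1.2 q.2) := by
  have h1 : PTime (fun q : ((List Bool × Option (List Bool × List Bool)) ×
      (Bool × List Bool)) × Option (List Bool) => q.2) := by fun_prop
  have h2 : PTime (fun q : ((List Bool × Option (List Bool × List Bool)) ×
      (Bool × List Bool)) × Option (List Bool) =>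
      (q.1.1.1, some (q.1.1.2.getD (mk q.1.2.1 q.1.2.2 q.1.1.1)))) := by
    refine PTime.pair (by fun_prop) (PTime.some (PTime.getD (by fun_prop) ?_))
    exact ptime_mk (by fun_prop) (by fun_prop) (by fun_prop)
  refine (PTime.optCases (g := fun (q : ((List Bool × Option (List Bool × List Bool)) ×
      (Bool × List Bool)) × Option (List Bool)) (y : List Bool) => (y, q.1.1.2)) h1 h2
      (by fun_prop)).congr fun q => ?_
  unfold post
  cases q.2 <;> rfl

/-- the second phase step is computable with the oracle -/
lemma fpnp_up (C : Calc) {w : ℕ × (List Bool × List Bool) → Option (List Bool)} (hw : FPNP w) :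
    FPNP (fun p : (ℕ × (List Bool × List Bool × List Bool)) ×
      (List Bool × Option (List Bool × List Bool)) × (Bool × List Bool) =>
      up w p.1.1 p.2.1 p.2.2) := by
  have h1 : PTime (fun p : (ℕ × (List Bool × List Bool × List Bool)) ×
      (List Bool × Option (List Bool × List Bool)) × (Bool × List Bool) =>
      (p.1.1, mk p.2.2.1 p.2.2.2 p.2.1.1)) :=
    PTime.pair (by fun_prop) (ptime_mk (by fun_prop) (by fun_prop) (by fun_prop))
  have h2 := C.compp hw h1
  have h3 : PTime (fun p : (ℕ × (List Bool × List Bool × List Bool)) ×
      (List Bool × Option (List Bool × List Bool)) × (Bool × List Bool) =>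
      (p.2.1, p.2.2)) := by fun_prop
  exact C.pcomp ptime_post (C.pair (FPNP.of_ptime h3) h2)

end UPD

/-- **UPD** -/
theorem upd : S_UPD := by
  classical
  intro C hS F f K hf
  obtain ⟨w, hw, hw1, hw2⟩ := hS C (α := ℕ × (List Bool × List Bool)) (β := List Bool)
    (R := fun a x => x.length = K a.1 ∧ f (a.1, x) = a.2) (q := fun a => 1 + K a.1 * 4) (by
      refine NPp.of_ptime (PTime.decide_and ?_ ?_)
      · refine PTime.natEq (by fun_prop) ?_
        exact hf.pK.comp (f := fun p : (ℕ × (List Bool × List Bool)) × List Bool => p.1.1)
          (by fun_prop)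
      · refine PTime.eq ?_ (by fun_prop)
        exact hf.pf.comp (f := fun p : (ℕ × (List Bool × List Bool)) × List Bool =>
          (p.1.1, p.2)) (by fun_prop)) (by
      have h1 : PTime (fun a : ℕ × (List Bool × List Bool) => K a.1) :=
        hf.pK.comp (PTime.fst PTime.id)
      exact PTime.add (PTime.const 1) (PTime.mul h1 (PTime.const 4)))
  have hw1' : ∀ a x, w a = some x → x.length = K a.1 ∧ f (a.1, x) = a.2 := fun a x h =>
    (hw1 a x h).2
  have hw2' : ∀ a, w a = none → ∀ x : List Bool, x.length = K a.1 → f (a.1, x) ≠ a.2 :=
    fun a h x hx hfx => hw2 a h x (UPD.sz_bits x _ hx.le) ⟨hx, hfx⟩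
  refine ⟨fun a => UPD.res f K w a.1 a.2.1 a.2.2.1 a.2.2.2, ?_, fun n e p v he hv => ?_⟩
  · -- complexity
    -- the bound for sizes
    let B : ℕ × (List Bool × List Bool × List Bool) → ℕ := fun a => 1 + K a.1 * 4 + sz a
    have hBp : PB B := by
      have h1 : PTime (fun a : ℕ × (List Bool × List Bool × List Bool) => K a.1) :=
        hf.pK.comp (PTime.fst PTime.id)
      have h2 : PB (fun a : ℕ × (List Bool × List Bool × List Bool) => K a.1) :=
        h1.pb.mono fun a => by rw [sz_nat]; omega
      exact ((PB.const 1).add (h2.mul (PB.const 4))).add PB.sz_self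
    have hBe : ∀ a : ℕ × (List Bool × List Bool × List Bool), sz a.2.1 ≤ B a := fun a => by
      have h1 := sz_pair a
      have h2 := sz_pair a.2
      show _ ≤ 1 + K a.1 * 4 + sz a
      omega
    have hBv : ∀ a : ℕ × (List Bool × List Bool × List Bool), sz a.2.2.2 ≤ B a := fun a => by
      have h1 := sz_pair a
      have h2 := sz_pair a.2
      have h3 := sz_pair a.2.2
      show _ ≤ 1 + K a.1 * 4 + sz a
      omega
    have hBl : ∀ a : ℕ × (List Bool × List Bool × List Bool), a.2.2.1.length ≤ B a := fun a => by
      have h1 := sz_pair a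
      have h2 := sz_pair a.2
      have h3 := sz_pair a.2.2
      have h4 := length_lt_sz a.2.2.1
      show _ ≤ 1 + K a.1 * 4 + sz a
      omega
    have hdown : FPNP (fun a : ℕ × (List Bool × List Bool × List Bool) =>
        a.2.2.1.foldl (UPD.down f K a.1) (a.2.1, [])) := by
      refine F.foldl (f := fun (a : ℕ × (List Bool × List Bool × List Bool)) s b =>
        UPD.down f K a.1 s b) (FPNP.of_ptime ?_) (FPNP.of_ptime (by fun_prop))
        (FPNP.of_ptime (by fun_prop)) (h := fun a => 1 + B a + (1 + B a * (1 + (4 + B a)))) ?_ ?_
      · exact (UPD.ptime_down hf.pf hf.pK).comp (f := fun p : (ℕ × (List Bool × List Bool ×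
          List Bool)) × (List Bool × List (Bool × List Bool)) × Bool => (p.1.1, p.2.1, p.2.2))
          (by fun_prop)
      · exact ((PB.const 1).add hBp).add ((PB.const 1).add (hBp.mul ((PB.const 1).add
          ((PB.const 4).add hBp))))
      · intro a l' hl'
        obtain ⟨a1, a2, a3⟩ := UPD.down_size f K a.1 (B a) (by
          show _ ≤ 1 + K a.1 * 4 + sz a
          omega) l' (a.2.1, []) (hBe a) (by simp)
        have a4 : (l'.foldl (UPD.down f K a.1) (a.2.1, [])).2.length ≤ B a := by
          rw [a3]
          have := hl'.length_le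
          have := hBl a
          simp only [List.length_nil]
          omega
        have a5 := sz_list_le _ _ _ a4 a2
        show sz (l'.foldl (UPD.down f K a.1) (a.2.1, [])) ≤ _
        rw [sz_pair]
        omega
    refine F.foldl (f := fun (a : ℕ × (List Bool × List Bool × List Bool)) s x =>
        UPD.up w a.1 s x) (init := fun a => (a.2.2.2, none))
        (l := fun a => (a.2.2.1.foldl (UPD.down f K a.1) (a.2.1, [])).2)
        (UPD.fpnp_up C hw) (FPNP.of_ptime (by fun_prop)) (C.snd hdown)
        (h := fun a => 1 + B a + (7 + 2 * B a)) ?_ ?_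
    · exact ((PB.const 1).add hBp).add ((PB.const 7).add ((PB.const 2).mul hBp))
    · intro a l' hl'
      obtain ⟨a1, a2, a3⟩ := UPD.down_size f K a.1 (B a) (by
        show _ ≤ 1 + K a.1 * 4 + sz a
        omega) a.2.2.1 (a.2.1, []) (hBe a) (by simp)
      obtain ⟨b1, b2⟩ := UPD.up_size w a.1 (B a) (fun a' x h1 h2 => by
        have := (hw1 a' x h2).1
        rw [h1] at this
        show _ ≤ 1 + K a.1 * 4 + sz a
        omega) l' (a.2.2.2, none) (fun x hx => a2 x (hl'.subset hx)) (hBv a) (by
          show 1 ≤ 7 + 2 * B a
          omega)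
      show sz (l'.foldl (UPD.up w a.1) (a.2.2.2, none)) ≤ _
      rw [sz_pair]
      omega
  · obtain ⟨h1, h2, h3⟩ := UPD.correct f K hf w hw1' hw2' n v hv p e he
    exact ⟨h2, fun h => ⟨h1, h3 h⟩⟩

end Pool.TQ
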